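import Mathlib

/-!
# MP_7f6698_co: an infinite family of internally self-dual regular polyhedra of type `{p,p}`
for every odd `p ≥ 5`

For odd `m ≥ 3` we let permutations act on the triples `(i, j, x)`, `i, j ∈ ZMod p`,
`x ∈ ZMod m`.  The fold `fold k` is the identity on all triples with `i`, `j` equal or adjacent
in the cycle `ZMod p`; on the other triples it is `x ↦ -x` if `k = i`, `x ↦ 1 - x` if `k = j`
and the identity otherwise.  The generators are `ρ₀ : i ↦ 1 - i`, `ρ₁ : i ↦ -i` (acting on both
indices) and `ρ₂ = fold 0 * ρ₀ * fold 0`.  The product of all `fold k` is a translation of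
odd order in each coordinate; this relation of odd length puts `fold 0` into the group generated
by the `ρᵢ`, and `fold 0` induces the duality.
-/

namespace Pool.Agent.Results.MP_7f6698_co.DihedralFamily

/-- The group generated by a triple of elements. -/
def Gam {G : Type*} [Group G] (r : Fin 3 → G) : Subgroup G :=
  Subgroup.closure (Set.range r)

/-- A triple `r = (ρ₀, ρ₁, ρ₂)` of group elements makes the group generated by it a string
C-group of rank 3: the `ρᵢ` are involutions, `(ρ₀ρ₂)² = 1`, and the intersection property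
holds. -/
structure IsRegularPolyhedron {G : Type*} [Group G] (r : Fin 3 → G) : Prop where
  invol : ∀ i, orderOf (r i) = 2
  comm : (r 0 * r 2) ^ 2 = 1
  inter : Subgroup.closure {r 0, r 1} ⊓ Subgroup.closure {r 1, r 2} = Subgroup.closure {r 1}

/-- The polyhedron has type `{p,q}`. -/
def HasType {G : Type*} [Group G] (r : Fin 3 → G) (p q : ℕ) : Prop :=
  orderOf (r 0 * r 1) = p ∧ orderOf (r 1 * r 2) = q

/-- Some element of the group generated by the triple conjugates `ρᵢ` to `ρ₂₋ᵢ` for all `i`. -/
def InternallySelfDual {G : Type*} [Group G] (r : Fin 3 → G) : Prop :=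
  ∃ g ∈ Gam r, ∀ i, g⁻¹ * r i * g = r (Fin.rev i)

/-- Isomorphism of regular polyhedra: a group isomorphism that carries the distinguished
generators to the distinguished generators. -/
def Isomorphic {G H : Type*} [Group G] [Group H] (r : Fin 3 → G) (s : Fin 3 → H) : Prop :=
  ∃ e : Gam r ≃* Gam s, ∀ (i : Fin 3) (h : r i ∈ Gam r), (e ⟨r i, h⟩ : H) = s i

/-- `i` and `j` are neither equal nor adjacent in the cycle `ZMod p`. -/
def Far {p : ℕ} (i j : ZMod p) : Prop := i ≠ j ∧ i ≠ j + 1 ∧ j ≠ i + 1

instance {p : ℕ} (i j : ZMod p) : Decidable (Far i j) := by unfold Far; infer_instance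

/-- The points on which the permutations act. -/
abbrev Pt (p m : ℕ) : Type := ZMod p × ZMod p × ZMod m

/-- The underlying map of `fold k`. -/
def foldFun (p m : ℕ) (k : ZMod p) (z : Pt p m) : Pt p m :=
  (z.1, z.2.1, if Far z.1 z.2.1 then
    (if k = z.1 then -z.2.2 else if k = z.2.1 then 1 - z.2.2 else z.2.2) else z.2.2)

theorem foldFun_invol (p m : ℕ) (k : ZMod p) : Function.Involutive (foldFun p m k) := by
  rintro ⟨i, j, x⟩
  unfold foldFun
  by_cases h : Far i j
  · by_cases h1 : k = i
    · simp [h, h1]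
    · by_cases h2 : k = j
      · subst h2
        simp [h, h1]
      · simp [h, h1, h2]
  · simp [h]

/-- The involution `fold k`. -/
def fold (p m : ℕ) (k : ZMod p) : Equiv.Perm (Pt p m) := (foldFun_invol p m k).toPerm

/-- A permutation of the indices acts on both indices of a triple. -/
def idx (p m : ℕ) : Equiv.Perm (ZMod p) →* Equiv.Perm (Pt p m) where
  toFun s := Equiv.prodCongr s (Equiv.prodCongr s (Equiv.refl _))
  map_one' := by ext ⟨i, j, x⟩ <;> rfl
  map_mul' s t := by ext ⟨i, j, x⟩ <;> rfl

/-- The index permutation `i ↦ 1 - i`. -/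
def alpha (p : ℕ) : Equiv.Perm (ZMod p) :=
  Function.Involutive.toPerm (fun i => 1 - i) (fun i => by ring)

/-- The index permutation `i ↦ -i`. -/
def beta (p : ℕ) : Equiv.Perm (ZMod p) :=
  Function.Involutive.toPerm (fun i => -i) (fun i => by ring)

/-- The generators of the family. -/
def rho (p m : ℕ) : Fin 3 → Equiv.Perm (Pt p m) :=
  ![idx p m (alpha p), idx p m (beta p), fold p m 0 * idx p m (alpha p) * fold p m 0]

section
variable {p m : ℕ}

theorem fold_apply (k i j : ZMod p) (x : ZMod m) :
    fold p m k (i, j, x) = (i, j, if Far i j then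
      (if k = i then -x else if k = j then 1 - x else x) else x) := rfl

theorem idx_apply (s : Equiv.Perm (ZMod p)) (i j : ZMod p) (x : ZMod m) :
    idx p m s (i, j, x) = (s i, s j, x) := rfl

theorem fold_sq (k : ZMod p) : fold p m k * fold p m k = 1 := by
  ext1 z
  exact foldFun_invol p m k z

theorem fold_inv (k : ZMod p) : (fold p m k)⁻¹ = fold p m k :=
  inv_eq_of_mul_eq_one_left (fold_sq k)

/-- Index permutations `i ↦ t + i` and `i ↦ t - i`. -/
def Dih (s : Equiv.Perm (ZMod p)) : Prop :=
  ∃ t : ZMod p, (∀ i, s i = t + i) ∨ (∀ i, s i = t - i)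

theorem Dih.one : Dih (1 : Equiv.Perm (ZMod p)) := ⟨0, Or.inl fun i => by simp⟩

theorem Dih.mul {s t : Equiv.Perm (ZMod p)} (hs : Dih s) (ht : Dih t) : Dih (s * t) := by
  obtain ⟨u, hu | hu⟩ := hs <;> obtain ⟨v, hv | hv⟩ := ht
  · exact ⟨u + v, Or.inl fun i => by rw [Equiv.Perm.mul_apply, hu, hv]; ring⟩
  · exact ⟨u + v, Or.inr fun i => by rw [Equiv.Perm.mul_apply, hu, hv]; ring⟩
  · exact ⟨u - v, Or.inr fun i => by rw [Equiv.Perm.mul_apply, hu, hv]; ring⟩
  · exact ⟨u - v, Or.inl fun i => by rw [Equiv.Perm.mul_apply, hu, hv]; ring⟩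

theorem Dih.inv {s : Equiv.Perm (ZMod p)} (hs : Dih s) : Dih s⁻¹ := by
  obtain ⟨u, hu | hu⟩ := hs
  · refine ⟨-u, Or.inl fun i => ?_⟩
    rw [Equiv.Perm.inv_eq_iff_eq, hu]; ring
  · refine ⟨u, Or.inr fun i => ?_⟩
    rw [Equiv.Perm.inv_eq_iff_eq, hu]; ring

theorem Dih.far {s : Equiv.Perm (ZMod p)} (hs : Dih s) (i j : ZMod p) :
    Far (s i) (s j) ↔ Far i j := by
  obtain ⟨u, hu | hu⟩ := hs
  · unfold Far
    rw [hu, hu]
    constructor
    · rintro ⟨h1, h2, h3⟩
      exact ⟨fun h => h1 (by rw [h]), fun h => h2 (by rw [h]; ring), fun h => h3 (by rw [h]; ring)⟩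
    · rintro ⟨h1, h2, h3⟩
      exact ⟨fun h => h1 (add_left_cancel h),
        fun h => h2 (add_left_cancel (a := u) (by rw [h]; ring)),
        fun h => h3 (add_left_cancel (a := u) (by rw [h]; ring))⟩
  · unfold Far
    rw [hu, hu]
    constructor
    · rintro ⟨h1, h2, h3⟩
      exact ⟨fun h => h1 (by rw [h]), fun h => h3 (by rw [h]; ring), fun h => h2 (by rw [h]; ring)⟩
    · rintro ⟨h1, h2, h3⟩
      refine ⟨fun h => h1 (sub_right_injective h), fun h => h3 ?_, fun h => h2 ?_⟩
      · linear_combination h
      · linear_combination h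

theorem dih_alpha : Dih (alpha p) := ⟨1, Or.inr fun _ => rfl⟩
theorem dih_beta : Dih (beta p) := ⟨0, Or.inr fun i => (zero_sub i).symm⟩

/-- Index permutations permute the folds. -/
theorem idx_fold {s : Equiv.Perm (ZMod p)} (hs : Dih s) (k : ZMod p) :
    idx p m s * fold p m k = fold p m (s k) * idx p m s := by
  ext1 ⟨i, j, x⟩
  simp only [Equiv.Perm.mul_apply, fold_apply, idx_apply, hs.far, s.injective.eq_iff]

theorem idx_injective : Function.Injective (idx p m) := by
  intro s t h
  ext1 i
  have := congrArg (fun f : Equiv.Perm (Pt p m) => (f (i, i, 0)).1) h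
  exact this

theorem rho_zero : rho p m 0 = idx p m (alpha p) := rfl
theorem rho_one : rho p m 1 = idx p m (beta p) := rfl
theorem rho_two : rho p m 2 = fold p m 0 * rho p m 0 * fold p m 0 := rfl

theorem alpha_sq : alpha p * alpha p = 1 := by
  ext1 i
  exact (by ring : (1 : ZMod p) - (1 - i) = i)

theorem beta_sq : beta p * beta p = 1 := by
  ext1 i
  exact neg_neg i

theorem rho_sq (i : Fin 3) : rho p m i * rho p m i = 1 := by
  have h0 : rho p m 0 * rho p m 0 = 1 := by
    rw [rho_zero, ← map_mul, alpha_sq, map_one]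
  fin_cases i
  · exact h0
  · change rho p m 1 * rho p m 1 = 1
    rw [rho_one, ← map_mul, beta_sq, map_one]
  · change rho p m 2 * rho p m 2 = 1
    rw [rho_two]
    calc fold p m 0 * rho p m 0 * fold p m 0 * (fold p m 0 * rho p m 0 * fold p m 0)
        = fold p m 0 * rho p m 0 * (fold p m 0 * fold p m 0) * (rho p m 0 * fold p m 0) := by
          group
      _ = fold p m 0 * (rho p m 0 * rho p m 0) * fold p m 0 := by rw [fold_sq]; group
      _ = 1 := by rw [h0, mul_one, fold_sq]

/-- `fold 0` commutes with `ρ₁`. -/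
theorem fold_rho_one : rho p m 1 * fold p m 0 = fold p m 0 * rho p m 1 := by
  rw [rho_one, idx_fold dih_beta]
  congr 2
  exact neg_zero

/-- `ρ₂ ρ₀ = fold 0 * fold 1`. -/
theorem rho_two_zero : rho p m 2 * rho p m 0 = fold p m 0 * fold p m 1 := by
  have h : rho p m 0 * fold p m 0 = fold p m 1 * rho p m 0 := by
    rw [rho_zero, idx_fold dih_alpha]
    congr 2
    exact sub_zero _
  rw [rho_two, mul_assoc (fold p m 0), h]
  calc fold p m 0 * (fold p m 1 * rho p m 0) * rho p m 0
      = fold p m 0 * fold p m 1 * (rho p m 0 * rho p m 0) := by group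
    _ = _ := by rw [rho_sq, mul_one]

/-- The rotation `i ↦ 1 + i`. -/
theorem rot_apply (i : ZMod p) : (alpha p * beta p) i = 1 + i :=
  (by ring : (1 : ZMod p) - -i = 1 + i)

theorem dih_rot : Dih (alpha p * beta p) := dih_alpha.mul dih_beta

theorem rot_pow (n : ℕ) (i : ZMod p) : ((alpha p * beta p) ^ n) i = n + i := by
  induction n with
  | zero => simp
  | succ n ih =>
    rw [pow_succ', Equiv.Perm.mul_apply, ih, rot_apply]
    push_cast
    ring

theorem rot_order : orderOf (alpha p * beta p) = p := by
  refine Nat.dvd_antisymm ?_ ?_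
  · rw [orderOf_dvd_iff_pow_eq_one]
    ext1 i
    rw [rot_pow]
    simp
  · have h := rot_pow (p := p) (orderOf (alpha p * beta p)) 0
    rw [pow_orderOf_eq_one] at h
    rw [← ZMod.natCast_eq_zero_iff]
    simpa using h.symm

theorem idx_order (s : Equiv.Perm (ZMod p)) : orderOf (idx p m s) = orderOf s :=
  orderOf_injective _ idx_injective s

/-- Elements of the group generated by `ρ₀`, `ρ₁`. -/
theorem mem_zero_one {g : Equiv.Perm (Pt p m)}
    (hg : g ∈ Subgroup.closure {rho p m 0, rho p m 1}) : ∃ s, Dih s ∧ g = idx p m s := by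
  induction hg using Subgroup.closure_induction with
  | mem x hx =>
    rcases hx with rfl | rfl
    · exact ⟨_, dih_alpha, rfl⟩
    · exact ⟨_, dih_beta, rfl⟩
  | one => exact ⟨1, Dih.one, (map_one _).symm⟩
  | mul x y _ _ hx hy =>
    obtain ⟨s, hs, rfl⟩ := hx
    obtain ⟨t, ht, rfl⟩ := hy
    exact ⟨s * t, hs.mul ht, (map_mul _ _ _).symm⟩
  | inv x _ hx =>
    obtain ⟨s, hs, rfl⟩ := hx
    exact ⟨s⁻¹, hs.inv, (map_inv _ _).symm⟩

/-- Elements of the group generated by `ρ₁`, `ρ₂`. -/
theorem mem_one_two {g : Equiv.Perm (Pt p m)}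
    (hg : g ∈ Subgroup.closure {rho p m 1, rho p m 2}) :
    ∃ s, Dih s ∧ fold p m 0 * g * fold p m 0 = idx p m s := by
  induction hg using Subgroup.closure_induction with
  | mem x hx =>
    rcases hx with rfl | rfl
    · refine ⟨_, dih_beta, ?_⟩
      rw [mul_assoc, fold_rho_one, ← mul_assoc, fold_sq, one_mul, rho_one]
    · refine ⟨_, dih_alpha, ?_⟩
      rw [rho_two]
      calc fold p m 0 * (fold p m 0 * rho p m 0 * fold p m 0) * fold p m 0
          = (fold p m 0 * fold p m 0) * rho p m 0 * (fold p m 0 * fold p m 0) := by group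
        _ = _ := by rw [fold_sq, one_mul, mul_one, rho_zero]
  | one => exact ⟨1, Dih.one, by rw [mul_one, fold_sq, map_one]⟩
  | mul x y _ _ hx hy =>
    obtain ⟨s, hs, hs'⟩ := hx
    obtain ⟨t, ht, ht'⟩ := hy
    refine ⟨s * t, hs.mul ht, ?_⟩
    rw [map_mul, ← hs', ← ht']
    calc fold p m 0 * (x * y) * fold p m 0
        = fold p m 0 * x * 1 * y * fold p m 0 := by group
      _ = fold p m 0 * x * (fold p m 0 * fold p m 0) * y * fold p m 0 := by rw [fold_sq]
      _ = _ := by group
  | inv x _ hx =>
    obtain ⟨s, hs, hs'⟩ := hx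
    refine ⟨s⁻¹, hs.inv, ?_⟩
    rw [map_inv, ← hs', mul_inv_rev, mul_inv_rev, fold_inv, mul_assoc]

/-- Distinct indices give distinct folds (for `p ≥ 5`, `m ≥ 3`), at least with index `0`. -/
theorem fold_ne (hp : 5 ≤ p) (hm : 3 ≤ m) {k : ZMod p} (hk : fold p m k = fold p m 0) :
    k = 0 := by
  by_contra hne
  have : NeZero p := ⟨by omega⟩
  have : Fact (1 < m) := ⟨by omega⟩
  have two_ne : (2 : ZMod p) ≠ 0 := by
    have : ((2 : ℕ) : ZMod p) ≠ 0 := by
      rw [Ne, ZMod.natCast_eq_zero_iff]
      intro h; have := Nat.le_of_dvd (by norm_num) h; omega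
    simpa using this
  have one_ne : (1 : ZMod p) ≠ 0 := by
    have : ((1 : ℕ) : ZMod p) ≠ 0 := by
      rw [Ne, ZMod.natCast_eq_zero_iff]
      intro h; have := Nat.le_of_dvd (by norm_num) h; omega
    simpa using this
  have three_ne : (3 : ZMod p) ≠ 0 := by
    have : ((3 : ℕ) : ZMod p) ≠ 0 := by
      rw [Ne, ZMod.natCast_eq_zero_iff]
      intro h; have := Nat.le_of_dvd (by norm_num) h; omega
    simpa using this
  have two_ne' : (2 : ZMod m) ≠ 0 := by
    have : ((2 : ℕ) : ZMod m) ≠ 0 := by
      rw [Ne, ZMod.natCast_eq_zero_iff]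
      intro h; have := Nat.le_of_dvd (by norm_num) h; omega
    simpa using this
  have hfar : Far (0 : ZMod p) 2 := by
    refine ⟨two_ne.symm, ?_, ?_⟩
    · intro h; apply three_ne; linear_combination -h
    · intro h; apply one_ne; linear_combination h
  by_cases h2 : k = 2
  · have h := congrArg (fun f : Equiv.Perm (Pt p m) => (f (0, 2, 0)).2.2) hk
    simp only [fold_apply, if_pos hfar, h2, if_neg two_ne, if_true] at h
    simp at h
  · have h := congrArg (fun f : Equiv.Perm (Pt p m) => (f (0, 2, 1)).2.2) hk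
    simp only [fold_apply, if_pos hfar, if_neg hne, if_neg h2, if_true] at h
    apply two_ne'
    linear_combination h

theorem intersection (hp : 5 ≤ p) (hm : 3 ≤ m) :
    Subgroup.closure {rho p m 0, rho p m 1} ⊓ Subgroup.closure {rho p m 1, rho p m 2} =
      Subgroup.closure {rho p m 1} := by
  apply le_antisymm
  · rintro g ⟨h1, h2⟩
    obtain ⟨s, hs, rfl⟩ := mem_zero_one h1
    obtain ⟨t, ht, htt⟩ := mem_one_two h2
    -- the two index permutations agree
    have hst : s = t := by
      ext1 i
      have := congrArg (fun f : Equiv.Perm (Pt p m) => (f (i, i, 0)).1) htt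
      exact this
    subst hst
    have hcomm : idx p m s * fold p m 0 = fold p m 0 * idx p m s := by
      calc idx p m s * fold p m 0
          = fold p m 0 * fold p m 0 * (idx p m s * fold p m 0) := by rw [fold_sq, one_mul]
        _ = fold p m 0 * (fold p m 0 * idx p m s * fold p m 0) := by group
        _ = _ := by rw [htt]
    have h0 : fold p m (s 0) = fold p m 0 := by
      rw [idx_fold hs] at hcomm
      exact mul_right_cancel hcomm
    have hs0 : s 0 = 0 := fold_ne hp hm h0
    obtain ⟨u, hu | hu⟩ := hs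
    · have hu0 : u = 0 := by rw [hu] at hs0; simpa using hs0
      have : s = 1 := by ext1 i; rw [hu, hu0, zero_add]; rfl
      rw [this, map_one]
      exact one_mem _
    · have hu0 : u = 0 := by rw [hu] at hs0; simpa using hs0
      have : s = beta p := by ext1 i; rw [hu, hu0, zero_sub]; rfl
      rw [this]
      exact Subgroup.subset_closure rfl
  · refine le_inf (Subgroup.closure_mono ?_) (Subgroup.closure_mono ?_)
    · intro x hx; exact Or.inr hx
    · intro x hx; exact Or.inl hx

/-- Products of folds along a list of indices. -/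
def foldList (p m : ℕ) (l : List (ZMod p)) : Equiv.Perm (Pt p m) := (l.map (fold p m)).prod

theorem foldList_cons (k : ZMod p) (l : List (ZMod p)) :
    foldList p m (k :: l) = fold p m k * foldList p m l := by
  simp [foldList]

theorem foldList_append (l l' : List (ZMod p)) :
    foldList p m (l ++ l') = foldList p m l * foldList p m l' := by
  simp [foldList]

theorem foldList_pow (l : List (ZMod p)) (n : ℕ) :
    foldList p m (List.replicate n l).flatten = foldList p m l ^ n := by
  induction n with
  | zero => simp [foldList]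
  | succ n ih => rw [List.replicate_succ, List.flatten_cons, foldList_append, ih, pow_succ']

/-- The action of a product of folds in one coordinate. -/
theorem foldList_apply (l : List (ZMod p)) (i j : ZMod p) :
    ∃ t : ZMod m, ∀ x, foldList p m l (i, j, x) =
      (i, j, (-1) ^ (if Far i j then l.count i + l.count j else 0) * x + t) := by
  induction l with
  | nil => exact ⟨0, fun x => by simp [foldList]⟩
  | cons k l ih =>
    obtain ⟨t, ht⟩ := ih
    by_cases h : Far i j
    · simp only [if_pos h] at ht ⊢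
      by_cases h1 : k = i
      · have hne : i ≠ j := h.1
        refine ⟨-t, fun x => ?_⟩
        rw [foldList_cons, Equiv.Perm.mul_apply, ht, fold_apply, if_pos h, if_pos h1, h1,
          List.count_cons_self, List.count_cons_of_ne hne]
        refine Prod.ext rfl (Prod.ext rfl ?_)
        change -(_ : ZMod m) = _
        rw [show List.count i l + 1 + List.count j l = (List.count i l + List.count j l) + 1 by
          omega, pow_succ]
        ring
      · by_cases h2 : k = j
        · refine ⟨1 - t, fun x => ?_⟩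
          rw [foldList_cons, Equiv.Perm.mul_apply, ht, fold_apply, if_pos h, if_neg h1, if_pos h2,
            h2, List.count_cons_self, List.count_cons_of_ne h.1.symm]
          refine Prod.ext rfl (Prod.ext rfl ?_)
          change 1 - (_ : ZMod m) = _
          rw [show List.count i l + (List.count j l + 1) = (List.count i l + List.count j l) + 1 by
            omega, pow_succ]
          ring
        · refine ⟨t, fun x => ?_⟩
          rw [foldList_cons, Equiv.Perm.mul_apply, ht, fold_apply, if_pos h, if_neg h1, if_neg h2,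
            List.count_cons_of_ne h1, List.count_cons_of_ne h2]
    · simp only [if_neg h] at ht ⊢
      refine ⟨t, fun x => ?_⟩
      rw [foldList_cons, Equiv.Perm.mul_apply, ht, fold_apply, if_neg h]

/-- A permutation that is a translation in each coordinate has `m`-th power one. -/
theorem pow_eq_one_of_translation {u : Equiv.Perm (Pt p m)}
    (hu : ∀ i j, ∃ t : ZMod m, ∀ x, u (i, j, x) = (i, j, x + t)) : u ^ m = 1 := by
  have key : ∀ i j (t : ZMod m), (∀ x, u (i, j, x) = (i, j, x + t)) →
      ∀ (n : ℕ) x, (u ^ n) (i, j, x) = (i, j, x + n * t) := by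
    intro i j t ht n
    induction n with
    | zero => intro x; simp
    | succ n ih =>
      intro x
      rw [pow_succ', Equiv.Perm.mul_apply, ih, ht]
      refine Prod.ext rfl (Prod.ext rfl ?_)
      push_cast
      ring
  ext1 ⟨i, j, x⟩
  obtain ⟨t, ht⟩ := hu i j
  rw [key i j t ht m x]
  simp

/-- `(fold word) ^ (2m) = 1`. -/
theorem foldList_pow_two_m (l : List (ZMod p)) : (foldList p m l) ^ (2 * m) = 1 := by
  rw [pow_mul]
  apply pow_eq_one_of_translation
  intro i j
  obtain ⟨t, ht⟩ := foldList_apply (m := m) l i j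
  refine ⟨(-1) ^ (if Far i j then l.count i + l.count j else 0) * t + t, fun x => ?_⟩
  rw [sq, Equiv.Perm.mul_apply, ht, ht]
  refine Prod.ext rfl (Prod.ext rfl ?_)
  have h1 : ((-1 : ZMod m) ^ (if Far i j then l.count i + l.count j else 0)) *
      (-1) ^ (if Far i j then l.count i + l.count j else 0) = 1 := by
    rw [← mul_pow]; simp
  linear_combination x * h1

/-- The product of all folds has order dividing `m`. -/
theorem all_pow [NeZero p] :
    (foldList p m (Finset.univ : Finset (ZMod p)).toList) ^ m = 1 := by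
  apply pow_eq_one_of_translation
  intro i j
  obtain ⟨t, ht⟩ := foldList_apply (m := m) (Finset.univ : Finset (ZMod p)).toList i j
  refine ⟨t, fun x => ?_⟩
  rw [ht]
  have hc : ∀ k : ZMod p, (Finset.univ : Finset (ZMod p)).toList.count k = 1 := fun k =>
    List.count_eq_one_of_mem (Finset.nodup_toList _) (by simp)
  rw [hc, hc]
  refine Prod.ext rfl (Prod.ext rfl ?_)
  split_ifs <;> ring

theorem mem_gam (i : Fin 3) : rho p m i ∈ Gam (rho p m) :=
  Subgroup.subset_closure ⟨i, rfl⟩

/-- Conjugation by the rotation shifts the folds. -/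
theorem rot_fold (k : ZMod p) :
    (rho p m 0 * rho p m 1) * fold p m k * (rho p m 0 * rho p m 1)⁻¹ = fold p m (1 + k) := by
  rw [rho_zero, rho_one, ← map_mul, idx_fold dih_rot, rot_apply, mul_inv_cancel_right]

theorem adj_mem (n : ℕ) : fold p m n * fold p m (n + 1) ∈ Gam (rho p m) := by
  induction n with
  | zero =>
    have h := mul_mem (mem_gam (p := p) (m := m) 2) (mem_gam 0)
    rw [rho_two_zero] at h
    simpa using h
  | succ n ih =>
    have hr : rho p m 0 * rho p m 1 ∈ Gam (rho p m) := mul_mem (mem_gam 0) (mem_gam 1)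
    have h := mul_mem (mul_mem hr ih) (inv_mem hr)
    have h2 : (rho p m 0 * rho p m 1) * (fold p m n * fold p m (n + 1)) *
        (rho p m 0 * rho p m 1)⁻¹ = fold p m ((n + 1 : ℕ)) * fold p m ((n + 1 : ℕ) + 1) := by
      calc (rho p m 0 * rho p m 1) * (fold p m n * fold p m (n + 1)) *
            (rho p m 0 * rho p m 1)⁻¹
          = ((rho p m 0 * rho p m 1) * fold p m n * (rho p m 0 * rho p m 1)⁻¹) *
            ((rho p m 0 * rho p m 1) * fold p m (n + 1) * (rho p m 0 * rho p m 1)⁻¹) := by group
        _ = _ := by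
          rw [rot_fold, rot_fold]
          congr 2
          · push_cast; ring
          · push_cast; ring
    rw [h2] at h
    exact h

theorem zero_nat_mem (n : ℕ) : fold p m 0 * fold p m n ∈ Gam (rho p m) := by
  induction n with
  | zero => simp [fold_sq]
  | succ n ih =>
    have h := mul_mem ih (adj_mem (p := p) (m := m) n)
    have h2 : fold p m 0 * fold p m n * (fold p m n * fold p m (n + 1)) =
        fold p m 0 * (fold p m n * fold p m n) * fold p m (n + 1) := by group
    rw [h2, fold_sq, mul_one] at h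
    simpa using h

theorem zero_mem [NeZero p] (k : ZMod p) : fold p m 0 * fold p m k ∈ Gam (rho p m) := by
  have h := zero_nat_mem (p := p) (m := m) k.val
  rwa [ZMod.natCast_zmod_val] at h

theorem mem_zero [NeZero p] (k : ZMod p) : fold p m k * fold p m 0 ∈ Gam (rho p m) := by
  have h := inv_mem (zero_mem (p := p) (m := m) k)
  rwa [mul_inv_rev, fold_inv, fold_inv] at h

theorem parity [NeZero p] (l : List (ZMod p)) :
    (Even l.length → foldList p m l ∈ Gam (rho p m)) ∧
    (¬ Even l.length → fold p m 0 * foldList p m l ∈ Gam (rho p m)) := by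
  induction l with
  | nil => exact ⟨fun _ => by simp [foldList], fun h => by simp at h⟩
  | cons k l ih =>
    rw [List.length_cons, Nat.even_add_one, not_not, foldList_cons]
    refine ⟨fun h => ?_, fun h => ?_⟩
    · have h1 := mul_mem (mem_zero (p := p) (m := m) k) (ih.2 h)
      have h2 : fold p m k * fold p m 0 * (fold p m 0 * foldList p m l) =
          fold p m k * (fold p m 0 * fold p m 0) * foldList p m l := by group
      rwa [h2, fold_sq, mul_one] at h1
    · have h1 := mul_mem (zero_mem (p := p) (m := m) k) (ih.1 h)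
      rwa [mul_assoc] at h1

/-- The fold `fold 0` lies in the group of the polyhedron. -/
theorem fold_zero_mem [NeZero p] (hp : Odd p) (hm : Odd m) : fold p m 0 ∈ Gam (rho p m) := by
  have h := (parity (p := p) (m := m)
    (List.replicate m (Finset.univ : Finset (ZMod p)).toList).flatten).2 ?_
  · rw [foldList_pow, all_pow, mul_one] at h
    exact h
  · rw [List.length_flatten, List.map_replicate, List.sum_replicate, Finset.length_toList,
      Finset.card_univ, ZMod.card, smul_eq_mul, Nat.not_even_iff_odd]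
    exact hm.mul hp

theorem nat_ne_zero (hp : 5 ≤ p) (n : ℕ) (h0 : 0 < n) (hn : n < 5) : (n : ZMod p) ≠ 0 := by
  rw [Ne, ZMod.natCast_eq_zero_iff]
  intro h
  have := Nat.le_of_dvd h0 h
  omega

theorem rho_order (hp : 5 ≤ p) (i : Fin 3) : orderOf (rho p m i) = 2 := by
  have h1 : (1 : ZMod p) ≠ 0 := by simpa using nat_ne_zero hp 1 (by norm_num) (by norm_num)
  have h2 : (2 : ZMod p) ≠ 0 := by simpa using nat_ne_zero hp 2 (by norm_num) (by norm_num)
  have h0 : rho p m 0 ≠ 1 := by
    intro h
    rw [rho_zero, ← map_one (idx p m)] at h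
    have := congrArg (fun f : Equiv.Perm (ZMod p) => f 0) (idx_injective h)
    change (1 : ZMod p) - 0 = 0 at this
    apply h1
    simpa using this
  have hb : rho p m 1 ≠ 1 := by
    intro h
    rw [rho_one, ← map_one (idx p m)] at h
    have := congrArg (fun f : Equiv.Perm (ZMod p) => f 1) (idx_injective h)
    change (-1 : ZMod p) = 1 at this
    apply h2
    linear_combination -this
  have hc : rho p m 2 ≠ 1 := by
    intro h
    apply h0
    rw [rho_two] at h
    calc rho p m 0 = (fold p m 0 * fold p m 0) * rho p m 0 * (fold p m 0 * fold p m 0) := by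
          rw [fold_sq, one_mul, mul_one]
      _ = fold p m 0 * (fold p m 0 * rho p m 0 * fold p m 0) * fold p m 0 := by group
      _ = 1 := by rw [h, mul_one, fold_sq]
  have hne : rho p m i ≠ 1 := by
    fin_cases i
    · exact h0
    · exact hb
    · exact hc
  have : Fact (Nat.Prime 2) := ⟨Nat.prime_two⟩
  exact orderOf_eq_prime (by rw [sq, rho_sq]) hne

theorem fold_comm : fold p m 0 * fold p m 1 = fold p m 1 * fold p m 0 := by
  ext1 ⟨i, j, x⟩
  simp only [Equiv.Perm.mul_apply, fold_apply]
  refine Prod.ext rfl (Prod.ext rfl ?_)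
  by_cases h : Far i j
  · simp only [if_pos h]
    obtain ⟨h1, h2, h3⟩ := h
    by_cases a0 : 0 = i
    · subst a0
      have e1 : ¬ (1 = j) := fun e => h3 (by rw [← e]; ring)
      have e2 : ¬ (0 = j) := h1
      by_cases a1 : (1 : ZMod p) = 0
      · simp [a1]
      · simp [a1, e1]
    · by_cases a1 : 1 = i
      · subst a1
        have e2 : ¬ (0 = j) := fun e => h2 (by rw [← e]; ring)
        have e1 : ¬ (1 = j) := h1
        simp [a0, e2]
      · simp only [if_neg a0, if_neg a1]
        by_cases b0 : 0 = j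
        · subst b0
          by_cases b1 : (1 : ZMod p) = 0
          · simp [b1]
          · simp [b1]
        · simp [b0]
  · simp only [if_neg h]

theorem comm_sq : (rho p m 0 * rho p m 2) ^ 2 = 1 := by
  have h : rho p m 0 * rho p m 2 = (rho p m 2 * rho p m 0)⁻¹ := by
    rw [mul_inv_rev, inv_eq_of_mul_eq_one_left (rho_sq 0), inv_eq_of_mul_eq_one_left (rho_sq 2)]
  rw [h, rho_two_zero, inv_pow, inv_eq_one, sq]
  calc fold p m 0 * fold p m 1 * (fold p m 0 * fold p m 1)
      = fold p m 0 * (fold p m 1 * fold p m 0) * fold p m 1 := by group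
    _ = (fold p m 0 * fold p m 0) * (fold p m 1 * fold p m 1) := by rw [← fold_comm]; group
    _ = 1 := by rw [fold_sq, fold_sq, one_mul]

theorem order_zero_one : orderOf (rho p m 0 * rho p m 1) = p := by
  rw [rho_zero, rho_one, ← map_mul, idx_order, rot_order]

theorem order_one_two : orderOf (rho p m 1 * rho p m 2) = p := by
  have h : rho p m 1 * rho p m 2 =
      MulAut.conj (fold p m 0) ((rho p m 0 * rho p m 1)⁻¹) := by
    rw [MulAut.conj_apply, mul_inv_rev, inv_eq_of_mul_eq_one_left (rho_sq 0),
      inv_eq_of_mul_eq_one_left (rho_sq 1), fold_inv, rho_two]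
    calc rho p m 1 * (fold p m 0 * rho p m 0 * fold p m 0)
        = (rho p m 1 * fold p m 0) * rho p m 0 * fold p m 0 := by group
      _ = _ := by rw [fold_rho_one]; group
  rw [h, MulEquiv.orderOf_eq, orderOf_inv, order_zero_one]

theorem selfDual [NeZero p] (hp : Odd p) (hm : Odd m) : InternallySelfDual (rho p m) := by
  refine ⟨fold p m 0, fold_zero_mem hp hm, ?_⟩
  intro i
  rw [fold_inv]
  fin_cases i
  · rfl
  · change fold p m 0 * rho p m 1 * fold p m 0 = rho p m 1
    rw [mul_assoc, fold_rho_one, ← mul_assoc, fold_sq, one_mul]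
  · change fold p m 0 * rho p m 2 * fold p m 0 = rho p m 0
    rw [rho_two]
    calc fold p m 0 * (fold p m 0 * rho p m 0 * fold p m 0) * fold p m 0
        = (fold p m 0 * fold p m 0) * rho p m 0 * (fold p m 0 * fold p m 0) := by group
      _ = _ := by rw [fold_sq, one_mul, mul_one]

/-- A word in the generators that separates the members of the family. -/
def word {G : Type*} [Group G] (r : Fin 3 → G) : G :=
  (r 2 * r 0) * ((r 0 * r 1) * (r 2 * r 0) * (r 0 * r 1)⁻¹)

theorem word_eq : word (rho p m) = fold p m 0 * fold p m 2 := by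
  unfold word
  rw [rho_two_zero]
  calc fold p m 0 * fold p m 1 * ((rho p m 0 * rho p m 1) * (fold p m 0 * fold p m 1) *
        (rho p m 0 * rho p m 1)⁻¹)
      = fold p m 0 * fold p m 1 * (((rho p m 0 * rho p m 1) * fold p m 0 *
          (rho p m 0 * rho p m 1)⁻¹) * ((rho p m 0 * rho p m 1) * fold p m 1 *
          (rho p m 0 * rho p m 1)⁻¹)) := by group
    _ = fold p m 0 * fold p m 1 * (fold p m 1 * fold p m 2) := by
        rw [rot_fold, rot_fold, add_zero, one_add_one_eq_two]
    _ = fold p m 0 * (fold p m 1 * fold p m 1) * fold p m 2 := by group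
    _ = _ := by rw [fold_sq, mul_one]

theorem word_pow : word (rho p m) ^ (2 * m) = 1 := by
  have h := foldList_pow_two_m (p := p) (m := m) [0, 2]
  rw [word_eq]
  simpa [foldList] using h

theorem word_pow_imp (hp : 5 ≤ p) (hm : Odd m) {n : ℕ} (h : word (rho p m) ^ (2 * n) = 1) :
    m ∣ n := by
  have h1 : (1 : ZMod p) ≠ 0 := by simpa using nat_ne_zero hp 1 (by norm_num) (by norm_num)
  have h2 : (2 : ZMod p) ≠ 0 := by simpa using nat_ne_zero hp 2 (by norm_num) (by norm_num)
  have h3 : (3 : ZMod p) ≠ 0 := by simpa using nat_ne_zero hp 3 (by norm_num) (by norm_num)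
  have hfar : Far (0 : ZMod p) 2 := by
    refine ⟨h2.symm, ?_, ?_⟩
    · intro h; apply h3; linear_combination -h
    · intro h; apply h1; linear_combination h
  have e2 : ∀ y : ZMod m, fold p m 2 (0, 2, y) = (0, 2, 1 - y) := fun y => by
    rw [fold_apply, if_pos hfar, if_neg h2, if_pos rfl]
  have e0 : ∀ y : ZMod m, fold p m 0 (0, 2, y) = (0, 2, -y) := fun y => by
    rw [fold_apply, if_pos hfar, if_pos rfl]
  have key : ∀ (k : ℕ) (x : ZMod m), (word (rho p m) ^ k) (0, 2, x) = (0, 2, x - k) := by
    intro k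
    induction k with
    | zero => intro x; simp
    | succ k ih =>
      intro x
      rw [pow_succ', Equiv.Perm.mul_apply, ih, word_eq, Equiv.Perm.mul_apply, e2, e0]
      refine Prod.ext rfl (Prod.ext rfl ?_)
      push_cast
      ring
  have h4 := key (2 * n) 0
  rw [h] at h4
  have h5 : ((2 * n : ℕ) : ZMod m) = 0 := by
    have := congrArg (fun z : Pt p m => z.2.2) h4
    change (0 : ZMod m) = 0 - ((2 * n : ℕ) : ZMod m) at this
    linear_combination this
  rw [ZMod.natCast_eq_zero_iff] at h5
  exact (Nat.Coprime.dvd_mul_left (Nat.Coprime.symm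
    (Nat.coprime_two_left.mpr hm))).mp h5

theorem word_iso {G H : Type*} [Group G] [Group H] {r : Fin 3 → G} {s : Fin 3 → H}
    (h : Isomorphic r s) {k : ℕ} (hk : word r ^ k = 1) : word s ^ k = 1 := by
  obtain ⟨e, he⟩ := h
  have hr : ∀ i, r i ∈ Gam r := fun i => Subgroup.subset_closure ⟨i, rfl⟩
  have hs : ∀ i, s i ∈ Gam s := fun i => Subgroup.subset_closure ⟨i, rfl⟩
  let R : Fin 3 → Gam r := fun i => ⟨r i, hr i⟩
  let S : Fin 3 → Gam s := fun i => ⟨s i, hs i⟩
  have heS : ∀ i, e (R i) = S i := fun i => Subtype.ext (he i (hr i))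
  have hR : word R ^ k = 1 := Subtype.ext (by simpa [word, R] using hk)
  have hS : word S ^ k = 1 := by
    have := congrArg e hR
    rw [map_pow, map_one] at this
    rw [← this]
    simp [word, heS]
  have := congrArg (Subtype.val) hS
  simpa [word, S] using this

/-- **Main theorem.**  For every odd `p ≥ 5` the triples `rho p m`, `m ≥ 3` odd, define finite
internally self-dual regular polyhedra of type `{p,p}`, pairwise non-isomorphic. -/
theorem result (p : ℕ) (hp5 : 5 ≤ p) (hp : Odd p) :
    (∀ m : ℕ, 3 ≤ m → Odd m →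
      IsRegularPolyhedron (rho p m) ∧ HasType (rho p m) p p ∧
      InternallySelfDual (rho p m) ∧ Finite (Gam (rho p m))) ∧
    (∀ m m' : ℕ, 3 ≤ m → Odd m → 3 ≤ m' → Odd m' → m ≠ m' →
      ¬ Isomorphic (rho p m) (rho p m')) := by
  have : NeZero p := ⟨by omega⟩
  constructor
  · intro m hm3 hm
    have : NeZero m := ⟨by omega⟩
    exact ⟨⟨rho_order hp5, comm_sq, intersection hp5 hm3⟩, ⟨order_zero_one, order_one_two⟩,
      selfDual hp hm, inferInstance⟩
  · intro m m' _ hm _ hm' hne hiso
    have h1 : m' ∣ m := word_pow_imp hp5 hm' (word_iso hiso word_pow)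
    have hsymm : Isomorphic (rho p m') (rho p m) := by
      obtain ⟨e, he⟩ := hiso
      refine ⟨e.symm, fun i h => ?_⟩
      have hr : rho p m i ∈ Gam (rho p m) := mem_gam i
      have : e ⟨rho p m i, hr⟩ = ⟨rho p m' i, h⟩ := Subtype.ext (he i hr)
      rw [← this, MulEquiv.symm_apply_apply]
    have h2 : m ∣ m' := word_pow_imp hp5 hm (word_iso hsymm word_pow)
    exact hne (Nat.dvd_antisymm h2 h1)

end

end Pool.Agent.Results.MP_7f6698_co.DihedralFamily
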